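import Mathlib
import Pool.Agent.Q212.NR.Pos

/-!
# Compacta whose small subsets have Corson closures

The question cannot be settled in ZFC: under Axiom R the answer is yes, and in a forcing extension
of every model there is a counterexample.
-/

set_option autoImplicit false

namespace Pool.Agent.Results.MP_1c9258_gt.SmallClosuresIndependent

open Cardinal
open Pool.Agent.Helper332.NRS (Kc)
open Pool.Agent.Q212.NR (NoNewFun NonreflectingForced IsNonreflecting IsCorson TwoSupports AxiomR)

/-- (1) Under Axiom R, every compact Hausdorff space in which the closures of all subsets of size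
at most `ℵ₁` are Corson compact is Corson compact. (2) Some forcing notion forces that there is no
new function from the ground model set of functions `ℕ → Bool` to the successor `Kc` of the
continuum, and that `Kc` carries a nonreflecting stationary set of points of cofinality `ω`.
(3) If `Kc` carries such a set, then there is a compact Hausdorff space `X` which is not Corson
compact, while for every `A ⊆ X` of size at most continuum the closure of `A` is Corson compact, and
even embeds in some `{0,1}^Γ` with all points having at most two coordinates equal to one. -/
theorem result :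
    (AxiomR → ∀ (X : Type) [TopologicalSpace X] [CompactSpace X] [T2Space X],
      (∀ A : Set X, #A ≤ ℵ₁ → IsCorson (closure A)) → IsCorson X) ∧
    (∃ (P : Type) (_ : Preorder P), Nonempty P ∧ ∀ p : P,
      p ∈ NoNewFun P ∧ p ∈ NonreflectingForced P) ∧
    ((∃ E : Set Kc, IsNonreflecting E) →
      ∃ (X : Type) (_ : TopologicalSpace X), CompactSpace X ∧ T2Space X ∧
        (∀ A : Set X, #A ≤ 𝔠 → IsCorson (closure A) ∧ TwoSupports (closure A)) ∧
        ¬ IsCorson X) := by
  refine ⟨fun hR X _ _ _ h => Pool.Agent.Q212.NR.corson_of_small hR X h,
    Pool.Agent.Q212.NR.exists_forcing, ?_⟩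
  rintro ⟨E, hE⟩
  obtain ⟨X, i, h1, h2, h3, h4⟩ := Pool.Agent.Q212.NR.exists_space hE.sys
  exact ⟨X, i, h1, h2, fun A hA => ⟨(h3 A hA).isCorson, h3 A hA⟩, h4⟩

end Pool.Agent.Results.MP_1c9258_gt.SmallClosuresIndependent
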